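import Pool.Agent.Helper76.SGA.Goals

/-!
Packet SGA-BZERO (MP_a41896_nt): the block Roth lemma for `0` blocks.
-/

set_option autoImplicit false

open MvPolynomial

namespace Pool.Agent.Helper73.SGA

open Pool.Agent.Helper92.Ru Pool.Agent.Helper42.SG

theorem bzero : BZERO := by
  intro k _ _ σ hσ
  refine ⟨1, 1, 1, le_refl _, one_pos, le_refl _, ?_⟩
  intro d ξ H W p _ _ _ hI
  exfalso
  have : IsEmpty (Fin (2 * 0)) := inferInstanceAs (IsEmpty (Fin 0))
  obtain ⟨hp, hW, _, _, hind⟩ := hI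
  obtain ⟨c, hc⟩ : ∃ c : k, p = C c := ⟨_, MvPolynomial.eq_C_of_isEmpty p⟩
  have hs : shiftP (fun h : Fin (2 * 0) => ξ h.val) p = C c := by
    rw [hc, shiftP, aeval_C]
    rfl
  have hc0 : c ≠ 0 := by
    intro h
    apply hp
    rw [hc, h, C_0]
  have hmem : (0 : Fin (2 * 0) →₀ ℕ) ∈ (shiftP (fun h : Fin (2 * 0) => ξ h.val) p).support := by
    rw [hs, mem_support_iff, coeff_C, if_pos rfl]
    exact hc0
  have h0 := hind 0 hmem
  simp only [Finset.univ_eq_empty, Finset.sum_empty] at h0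
  have h1 : 0 < σ * W := mul_pos hσ hW
  linarith

end Pool.Agent.Helper73.SGA
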